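import Mathlib

namespace Pool.Agent.Results.MP_314109_co.FourSets

open Finset

/-- `d(A,B) = sqrt(|A \ B|^2 + |B \ A|^2)`. -/
noncomputable def d {n : ℕ} (A B : Finset (Fin n)) : ℝ :=
  Real.sqrt (((A \ B).card : ℝ) ^ 2 + ((B \ A).card : ℝ) ^ 2)

def A : Fin 4 → Finset (Fin 5) := ![{1, 2}, {0, 3}, {1, 2, 4}, {0, 3, 4}]
def B : Fin 4 → Finset (Fin 5) := ![{0, 2}, {1, 3}, {0, 2, 4}, {1, 3, 4}]

/-- The squared distance as a natural number. -/
def q (S T : Finset (Fin 5)) : ℕ := (S \ T).card ^ 2 + (T \ S).card ^ 2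

lemma d_eq (S T : Finset (Fin 5)) : d S T = Real.sqrt (q S T : ℕ) := by
  simp [d, q]

def qq : Fin 4 → Fin 4 → ℕ := ![![0, 8, 1, 13], ![8, 0, 13, 1], ![1, 13, 0, 8], ![13, 1, 8, 0]]
def qr : Fin 4 → Fin 4 → ℕ := ![![2, 2, 5, 5], ![2, 2, 5, 5], ![5, 5, 2, 2], ![5, 5, 2, 2]]

lemma qA : ∀ i j, q (A i) (A j) = qq i j := by decide
lemma qB : ∀ i j, q (B i) (B j) = qq i j := by decide
lemma qAB : ∀ i j, q (A i) (B j) = qr i j := by decide

theorem result : ∃ (n m : ℕ) (A B : Fin m → Finset (Fin n)), 1 ≤ m ∧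
    Function.Injective A ∧ Function.Injective B ∧
    ∑ i, ∑ j, d (A i) (B j) <
      (∑ i, ∑ j with i < j, d (A i) (A j)) + ∑ i, ∑ j with i < j, d (B i) (B j) := by
  refine ⟨5, 4, A, B, by norm_num, by decide, by decide, ?_⟩
  simp only [d_eq, qA, qB, qAB, sum_filter, Fin.sum_univ_four]
  simp [qq, qr]
  have h2 : Real.sqrt 2 < 1.415 := by rw [Real.sqrt_lt' (by norm_num)]; norm_num
  have h5 : Real.sqrt 5 < 2.237 := by rw [Real.sqrt_lt' (by norm_num)]; norm_num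
  have h8 : 2.828 < Real.sqrt 8 := by rw [Real.lt_sqrt (by norm_num)]; norm_num
  have h13 : 3.605 < Real.sqrt 13 := by rw [Real.lt_sqrt (by norm_num)]; norm_num
  linarith

end Pool.Agent.Results.MP_314109_co.FourSets
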